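import Pool.Agent.H258.Spin.Final
import Pool.Agent.H258.Spin.Model

/-!
# Factoriality of the intersection of two `4 × 4` spin model subfactors

Positive answer to Q1, for all pairs of angles.
-/

namespace Pool.Agent.Results.MP_862c25_an.IntersectionFactor

open Pool.Agent.H258.Spin

universe w

theorem result :
    (∃ D : Data 4 (lp (fun _ : ℕ →₀ ZMod 4 => ℂ) 2), D.IsTower) ∧
    ∀ (H : Type w) [NormedAddCommGroup H] [InnerProductSpace ℂ H] [CompleteSpace H]
      (D : Data 4 H), D.IsTower → D.Q1 := by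
  refine ⟨Model.exists_tower, ?_⟩
  intro H _ _ _ D hD a b ha hb
  refine ⟨isHadamard_u ha, isHadamard_u hb, inter (D.Ru (u a)) (D.Ru (u b)), mem_inter _ _,
    ?_, ?_⟩
  · intro x hx hxc
    exact hD.scalar_of_comm (isHadamard_u ha) hx.1 fun j =>
      hxc _ ⟨Data.e_mem_Ru (u a) j, Data.e_mem_Ru (u b) j⟩
  · intro x hx hxc
    exact hD.irreducible a b hx hxc

end Pool.Agent.Results.MP_862c25_an.IntersectionFactor
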